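import Pool.Agent.Helper41.Cluster4.Goals
import Pool.Agent.Helper41.Cluster4.Tools

/-!
MP_c45da2_co, packet IC: the icosahedral case.
-/

namespace Pool.Agent.Helper96.Cl4

open Module Pool.Agent.Helper65.Delone Pool.Agent.Helper41.Cluster4
open scoped RealInnerProductSpace

section

variable {E : Type*} [NormedAddCommGroup E] [InnerProductSpace ℝ E]

theorem norm_comp_sq {y z : E} (hy : ‖y‖ = 1) (hz : ‖z‖ = 1) :
    ‖z - ⟪z, y⟫ • y‖ ^ 2 = 1 - ⟪z, y⟫ ^ 2 := by
  rw [norm_sub_sq_real, inner_smul_right, norm_smul, hz, hy, mul_one, Real.norm_eq_abs,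
    sq_abs]
  ring

/-- the height of a unit vector different from `y` and `-y` -/
theorem height_lt {y z : E} (hy : ‖y‖ = 1) (hz : ‖z‖ = 1) (h1 : z ≠ y) (h2 : z ≠ -y) :
    ⟪z, y⟫ ^ 2 < 1 := by
  have h := norm_comp_sq hy hz
  by_contra hcon
  push Not at hcon
  have h0 : ‖z - ⟪z, y⟫ • y‖ ^ 2 = 0 := le_antisymm (by rw [h]; linarith) (sq_nonneg _)
  have h3 : z = ⟪z, y⟫ • y := by
    have := pow_eq_zero_iff (two_ne_zero) |>.1 h0
    exact sub_eq_zero.1 (norm_eq_zero.1 this)
  have h4 : ⟪z, y⟫ * ⟪z, y⟫ = 1 := by rw [h0] at h; nlinarith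
  rcases mul_self_eq_one_iff.1 h4 with h5 | h5
  · rw [h5, one_smul] at h3
    exact h1 h3
  · rw [h5, neg_smul, one_smul] at h3
    exact h2 h3

/-- the unit vector in the direction of the component orthogonal to `y` has the same stabilizer -/
theorem stb_comp (H : Subgroup (E ≃ₗᵢ[ℝ] E)) {y z : E} (hy : ‖y‖ = 1) (hz : ‖z‖ = 1)
    (h1 : z ≠ y) (h2 : z ≠ -y) (hH : ∀ A ∈ H, A y = y) :
    ∃ u : E, ‖u‖ = 1 ∧ ⟪u, y⟫ = 0 ∧ stb H z = stb H u := by
  have hlt := height_lt hy hz h1 h2
  have hn := norm_comp_sq hy hz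
  have hpos : 0 < ‖z - ⟪z, y⟫ • y‖ := by
    have h3 : 0 < ‖z - ⟪z, y⟫ • y‖ ^ 2 := by rw [hn]; linarith
    refine lt_of_le_of_ne (norm_nonneg _) fun h4 => ?_
    rw [← h4] at h3
    simp at h3
  refine ⟨‖z - ⟪z, y⟫ • y‖⁻¹ • (z - ⟪z, y⟫ • y), ?_, ?_, ?_⟩
  · rw [norm_smul, norm_inv, norm_norm, inv_mul_cancel₀ hpos.ne']
  · rw [inner_smul_left, inner_sub_left, inner_smul_left, real_inner_self_eq_norm_sq, hy]
    simp
  · ext A
    rw [mem_stb, mem_stb]
    refine and_congr_right fun hA => ?_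
    rw [map_smul, map_sub, map_smul, hH A hA]
    constructor
    · intro h
      rw [h]
    · intro h
      have h3 := smul_right_injective E (inv_ne_zero hpos.ne') h
      exact sub_left_injective h3

theorem orb_inner {H : Subgroup (E ≃ₗᵢ[ℝ] E)} {y z w : E} (hH : ∀ A ∈ H, A y = y)
    (hw : w ∈ orb H z) : ⟪w, y⟫ = ⟪z, y⟫ := by
  obtain ⟨A, hA, rfl⟩ := hw
  conv_lhs => rw [← hH A hA]
  exact A.inner_map_map z y

/-- the points of given height on a circle -/
theorem plane_le_two {y u : E} (hy : ‖y‖ = 1) (hu : ‖u‖ = 1) (huy : ⟪u, y⟫ = 0) (t : ℝ)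
    (S : Set E) (hS : ∀ w ∈ S, ‖w‖ = 1 ∧ ⟪w, y⟫ = t ∧ w ∈ Submodule.span ℝ {y, u}) :
    S.ncard ≤ 2 := by
  set s := Real.sqrt (1 - t ^ 2) with hs
  have hsub : S ⊆ {t • y + s • u, t • y + (-s) • u} := by
    intro w hw
    obtain ⟨hn, ht, hP⟩ := hS w hw
    obtain ⟨a, b, rfl⟩ := Submodule.mem_span_pair.1 hP
    have ha : a = t := by
      rw [inner_add_left, inner_smul_left, inner_smul_left, huy, real_inner_self_eq_norm_sq,
        hy] at ht
      simpa using ht
    subst ha
    have hb : a ^ 2 + b ^ 2 = 1 := by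
      have h := norm_add_sq_real (a • y) (b • u)
      rw [hn, inner_smul_left, inner_smul_right, real_inner_comm, huy, norm_smul, norm_smul, hy,
        hu, mul_one, mul_one, Real.norm_eq_abs, Real.norm_eq_abs, sq_abs, sq_abs] at h
      simp at h
      linarith
    have hb2 : b * b = s * s := by
      rw [hs, Real.mul_self_sqrt (by nlinarith [sq_nonneg b])]
      linarith
    rcases mul_self_eq_mul_self_iff.1 hb2 with h | h
    · left; rw [h]
    · right; rw [Set.mem_singleton_iff, h]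
  refine (Set.ncard_le_ncard hsub (Set.toFinite _)).trans ?_
  refine (Set.ncard_insert_le _ _).trans ?_
  rw [Set.ncard_singleton]

theorem cos_gt : 1 / 2 < Real.cos (2 * Real.pi / (7 : ℕ)) := by
  rw [← Real.cos_pi_div_three]
  refine Real.cos_lt_cos_of_nonneg_of_le_pi (by positivity) ?_ ?_
  · have := Real.pi_pos; linarith
  · have := Real.pi_pos
    push_cast
    linarith

variable [FiniteDimensional ℝ E]

/-- a code has at most six points with given inner products with two vectors -/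
theorem two_heights (hE : finrank ℝ E = 4) (hC : Circle4 E) {y z : E} (hy : ‖y‖ = 1)
    (hz : ‖z‖ = 1) (h1 : z ≠ y) (h2 : z ≠ -y) (N : Set E) (hN : UCode N) (a b : ℝ) (M : Set E)
    (hM : M ⊆ N) (hMy : ∀ w ∈ M, ⟪w, y⟫ = a) (hMz : ∀ w ∈ M, ⟪w, z⟫ = b)
    (hcard : 7 ≤ M.ncard) : False := by
  classical
  have hMf : M.Finite := hN.fin.subset hM
  have hne : M.Nonempty := by
    rw [← Set.ncard_pos hMf]; omega
  obtain ⟨w0, hw0⟩ := hne
  set P : Submodule ℝ E := Submodule.span ℝ {y, z} with hP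
  have hlt := height_lt hy hz h1 h2
  have hli : LinearIndependent ℝ ![y, z] := by
    rw [LinearIndependent.pair_iff]
    intro s t hst
    have e1 : s + t * ⟪z, y⟫ = 0 := by
      have := congrArg (fun v => ⟪v, y⟫) hst
      simp only [inner_add_left, inner_smul_left, real_inner_self_eq_norm_sq, hy,
        inner_zero_left] at this
      simpa using this
    have e2 : s * ⟪z, y⟫ + t = 0 := by
      have := congrArg (fun v => ⟪v, z⟫) hst
      simp only [inner_add_left, inner_smul_left, real_inner_self_eq_norm_sq, hz,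
        inner_zero_left] at this
      rw [real_inner_comm] at this
      simpa using this
    have e3 : t * (1 - ⟪z, y⟫ ^ 2) = 0 := by linear_combination e2 - ⟪z, y⟫ * e1
    have ht : t = 0 := by
      rcases mul_eq_zero.1 e3 with h | h
      · exact h
      · linarith
    rw [ht] at e1
    exact ⟨by simpa using e1, ht⟩
  have hPr : finrank ℝ P = 2 := by
    have h := finrank_span_eq_card hli
    rw [Fintype.card_fin] at h
    have e : Set.range ![y, z] = {y, z} := by
      ext v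
      simp [eq_comm, or_comm]
    rw [e] at h
    exact h
  have hPo : finrank ℝ Pᗮ = 2 := by
    have := P.finrank_add_finrank_orthogonal
    omega
  set q : E := P.starProjection w0 with hq
  have hqP : q ∈ P := by
    rw [hq]
    exact Submodule.coe_mem _
  have hq0 : w0 - q ∈ Pᗮ := P.sub_starProjection_mem_orthogonal w0
  have hwo : ∀ w ∈ M, w - q ∈ Pᗮ := by
    intro w hw
    have e : w - q = (w - w0) + (w0 - q) := by abel
    rw [e]
    refine Submodule.add_mem _ ?_ hq0
    rw [Submodule.mem_orthogonal]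
    intro p hp
    obtain ⟨c, d, rfl⟩ := Submodule.mem_span_pair.1 hp
    have f1 : ⟪y, w - w0⟫ = 0 := by
      rw [real_inner_comm, inner_sub_left, hMy w hw, hMy w0 hw0, sub_self]
    have f2 : ⟪z, w - w0⟫ = 0 := by
      rw [real_inner_comm, inner_sub_left, hMz w hw, hMz w0 hw0, sub_self]
    rw [inner_add_left, inner_smul_left, inner_smul_left, f1, f2]
    simp
  have hqw : ∀ w ∈ M, ⟪q, w - q⟫ = 0 := fun w hw =>
    (Submodule.mem_orthogonal _ _).1 (hwo w hw) q hqP
  have hnorm : ∀ w ∈ M, ‖w - q‖ ^ 2 = 1 - ‖q‖ ^ 2 := by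
    intro w hw
    have e : w = q + (w - q) := by abel
    have h := norm_add_sq_real q (w - q)
    rw [← e, hqw w hw, hN.norm w (hM hw)] at h
    linarith
  set s : Finset E := hMf.toFinset.image (fun w => w - q) with hs
  have hsc : s.card = M.ncard := by
    rw [hs, Finset.card_image_of_injective _ sub_left_injective, Set.ncard_eq_toFinset_card M hMf]
  obtain ⟨v, hv, w, hw, hvw, hle⟩ := hC Pᗮ hPo (Real.sqrt (1 - ‖q‖ ^ 2)) s 7 (by
    intro v hv
    rw [hs, Finset.mem_image] at hv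
    obtain ⟨w, hw, rfl⟩ := hv
    rw [Set.Finite.mem_toFinset] at hw
    refine ⟨hwo w hw, ?_⟩
    rw [← hnorm w hw, Real.sqrt_sq (norm_nonneg _)]) (by norm_num) (by omega)
  rw [hs, Finset.mem_image] at hv hw
  obtain ⟨v', hv', rfl⟩ := hv
  obtain ⟨w', hw', rfl⟩ := hw
  rw [Set.Finite.mem_toFinset] at hv' hw'
  have hne : v' ≠ w' := fun h => hvw (by rw [h])
  have hr : Real.sqrt (1 - ‖q‖ ^ 2) ^ 2 = 1 - ‖q‖ ^ 2 :=
    Real.sq_sqrt (by rw [← hnorm v' hv']; positivity)
  rw [hr] at hle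
  have hsep := hN.sep v' (hM hv') w' (hM hw') hne
  have e : ⟪v', w'⟫ = ‖q‖ ^ 2 + ⟪v' - q, w' - q⟫ := by
    have g1 : ⟪q, w' - q⟫ = 0 := hqw w' hw'
    have g2 : ⟪v' - q, q⟫ = 0 := by rw [real_inner_comm]; exact hqw v' hv'
    have e1 : v' = q + (v' - q) := by abel
    have e2 : w' = q + (w' - q) := by abel
    conv_lhs => rw [e1, e2]
    rw [inner_add_left, inner_add_right, inner_add_right, g1, g2, real_inner_self_eq_norm_sq]
    ring
  have hq1 : 0 ≤ 1 - ‖q‖ ^ 2 := by rw [← hnorm v' hv']; positivity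
  have hcos := cos_gt
  have hcos1 := Real.cos_le_one (2 * Real.pi / (7 : ℕ))
  nlinarith [sq_nonneg ‖q‖]

theorem icosa (hF : FixFacts E) (hC : Circle4 E) (hP : Pent E) : Icosa E := by
  intro hE G N y hG hN hGN hyN hcard hu hst
  obtain ⟨u, hu1, huy, hu5⟩ := hu
  have hy : ‖y‖ = 1 := hN.norm y hyN
  set G0 := rt (stb G y) with hG0
  have hG0f : Finite G0 := finite_rt (finite_stb hG y)
  have hG0y : ∀ A ∈ G0, A y = y := fun A hA => hA.1.2
  have hG0G : ∀ A ∈ G0, A ∈ G := fun A hA => hA.1.1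
  have hG0N : Inv G0 N := fun A hA v hv => hGN A (hG0G A hA) v hv
  -- points outside the plane
  have hout := hP hE (stb G0 u) y u N (finite_stb hG0f u) hy hu1 huy
    (fun A hA => ⟨hA.1.2, hG0y A hA.1, hA.2⟩) hu5 hN (fun A hA v hv => hG0N A hA.1 v hv)
  set Out : Set E := {w | w ∈ N ∧ w ∉ Submodule.span ℝ {y, u}} with hOut
  have hOutf : Out.Finite := hN.fin.subset fun w hw => hw.1
  -- orbits
  have horb : ∀ z ∈ N, z ≠ y → z ≠ -y → (orb G0 z).ncard = 12 ∧
      10 ≤ (orb G0 z ∩ Out).ncard := by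
    intro z hz h1 h2
    have hzn := hN.norm z hz
    have hSN : orb G0 z ⊆ N := by
      rintro w ⟨A, hA, rfl⟩
      exact hG0N A hA z hz
    have hSf := hN.fin.subset hSN
    obtain ⟨v, hv1, hv2, hv3⟩ := stb_comp G0 hy hzn h1 h2 hG0y
    have hc := hst v hv1 hv2
    have hmul := ncard_orb_mul hG0f z
    rw [hv3, hcard] at hmul
    have hin : (orb G0 z ∩ {w | w ∈ Submodule.span ℝ {y, u}}).ncard ≤ 2 := by
      refine plane_le_two hy hu1 huy ⟪z, y⟫ _ fun w hw => ?_
      exact ⟨hN.norm w (hSN hw.1), orb_inner hG0y hw.1, hw.2⟩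
    have hsplit : (orb G0 z).ncard ≤
        (orb G0 z ∩ {w | w ∈ Submodule.span ℝ {y, u}}).ncard + (orb G0 z ∩ Out).ncard := by
      refine (Set.ncard_le_ncard (t := (orb G0 z ∩ {w | w ∈ Submodule.span ℝ {y, u}}) ∪
        (orb G0 z ∩ Out)) ?_ ?_).trans (Set.ncard_union_le _ _)
      · intro w hw
        by_cases hwP : w ∈ Submodule.span ℝ {y, u}
        · exact Or.inl ⟨hw, hwP⟩
        · exact Or.inr ⟨hw, hSN hw, hwP⟩
      · exact (hSf.inter_of_left _).union (hSf.inter_of_left _)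
    have hle15 : (orb G0 z ∩ Out).ncard ≤ 15 :=
      (Set.ncard_le_ncard Set.inter_subset_right hOutf).trans hout
    have h17 : (orb G0 z).ncard ≤ 17 := by omega
    have h12 : (orb G0 z).ncard = 12 := by
      simp only [Set.mem_insert_iff, Set.mem_singleton_iff] at hc
      rcases hc with h | h | h | h <;> rw [h] at hmul <;> omega
    exact ⟨h12, by omega⟩
  have hone : ∀ z ∈ N, z ≠ y → z ≠ -y → ∀ z' ∈ N, z' ≠ y → z' ≠ -y → z' ∈ orb G0 z := by
    intro z hz h1 h2 z' hz' h1' h2'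
    by_contra hcon
    have hdis : Disjoint (orb G0 z ∩ Out) (orb G0 z' ∩ Out) := by
      rw [Set.disjoint_left]
      rintro w ⟨hw, _⟩ ⟨hw', _⟩
      obtain ⟨A, hA, hAw⟩ := orb_symm hw'
      rw [← hAw] at hcon
      exact hcon (orb_map hw hA)
    have hcu := Set.ncard_union_eq hdis (hOutf.inter_of_right _) (hOutf.inter_of_right _)
    have hle : ((orb G0 z ∩ Out) ∪ (orb G0 z' ∩ Out)).ncard ≤ 15 :=
      (Set.ncard_le_ncard (Set.union_subset Set.inter_subset_right Set.inter_subset_right)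
        hOutf).trans hout
    have := (horb z hz h1 h2).2
    have := (horb z' hz' h1' h2').2
    omega
  have hind : Nat.card (stb G y) ≤ 120 := by
    rcases (hF hE).2.2 (stb G y) (finite_stb hG y) with h | h
    · rw [h, ← hG0, hcard]; norm_num
    · rw [h, ← hG0, hcard]
  by_cases hall : ∀ A ∈ G, A y = y ∨ A y = -y
  · have h := card_le_mul_stb hG y (s := {y, -y}) (Set.toFinite _) (fun A hA => by
      rcases hall A hA with h | h
      · exact Or.inl h
      · exact Or.inr h)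
    have h2 : ({y, -y} : Set E).ncard ≤ 2 := by
      refine (Set.ncard_insert_le _ _).trans ?_
      rw [Set.ncard_singleton]
    calc Nat.card G ≤ ({y, -y} : Set E).ncard * Nat.card (stb G y) := h
      _ ≤ 2 * 120 := Nat.mul_le_mul h2 hind
      _ = 240 := by norm_num
  · exfalso
    push Not at hall
    obtain ⟨g, hg, hg1, hg2⟩ := hall
    have hzN : g y ∈ N := hGN g hg y hyN
    have hzn := hN.norm _ hzN
    obtain ⟨h12, _⟩ := horb _ hzN hg1 hg2
    have hSN : orb G0 (g y) ⊆ N := by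
      rintro w ⟨A, hA, rfl⟩
      exact hG0N A hA _ hzN
    have hSf := hN.fin.subset hSN
    refine two_heights hE hC hy hzn hg1 hg2 N hN ⟪g y, y⟫ ⟪g y, y⟫
      (orb G0 (g y) \ {g y, -(g y)}) (fun w hw => hSN hw.1) ?_ ?_ ?_
    · intro w hw
      exact orb_inner hG0y hw.1
    · intro w hw
      have hwN := hSN hw.1
      have hw' : g⁻¹ w ∈ N := hGN g⁻¹ (G.inv_mem hg) w hwN
      have hgw : g (g⁻¹ w) = w := g.apply_symm_apply w
      have hn1 : g⁻¹ w ≠ y := by
        intro h
        rw [h] at hgw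
        exact hw.2 (Or.inl hgw.symm)
      have hn2 : g⁻¹ w ≠ -y := by
        intro h
        rw [h, map_neg] at hgw
        exact hw.2 (Or.inr hgw.symm)
      have h3 := orb_inner hG0y (hone _ hzN hg1 hg2 _ hw' hn1 hn2)
      rw [← h3]
      conv_lhs => rw [← hgw]
      exact g.inner_map_map _ _
    · have h2 : ({g y, -(g y)} : Set E).ncard ≤ 2 := by
        refine (Set.ncard_insert_le _ _).trans ?_
        rw [Set.ncard_singleton]
      have h3 := Set.le_ncard_sdiff ({g y, -(g y)} : Set E) (orb G0 (g y)) (Set.toFinite _)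
      omega

end

end Pool.Agent.Helper96.Cl4
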